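import Pool.Agent.Q240.CG.Stm
import Pool.Agent.Q177.CD2.Enum

set_option autoImplicit false

/-!
# Project CG of helper240, job CG-EnumG (helper150): the increasing enumeration of the ordinates for self-dual zero data
-/

open Polynomial Filter Topology Finset MeasureTheory

namespace Pool.Agent.Q150.CG

open Pool.Agent.Q240.CD Pool.Agent.Q240.CG

theorem isZ_neg [D : Y23.G.ZD] [SD] {t : ℝ} (h : (1 / 2 + Complex.I * (t : ℂ)) ∈ D.Zs) :
    (1 / 2 + Complex.I * ((-t : ℝ) : ℂ)) ∈ D.Zs := by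
  rw [← Q177.CD2.conj_half]
  exact SD.cj _ h

theorem mul_neg' [D : Y23.G.ZD] [SD] {t : ℝ} (h : (1 / 2 + Complex.I * (t : ℂ)) ∈ D.Zs) :
    D.mul (1 / 2 + Complex.I * ((-t : ℝ) : ℂ)) = D.mul (1 / 2 + Complex.I * (t : ℂ)) := by
  rw [← Q177.CD2.conj_half]
  exact SD.mcj _ h

theorem zg_of [D : Y23.G.ZD] (ρ : Y23.G.Zt) (z : ℂ) (h : (ρ : ℂ) = 1 / 2 + Complex.I * z) : zg ρ = z := by
  unfold zg
  rw [h]
  have : -Complex.I * (1 / 2 + Complex.I * z - 1 / 2) = -(Complex.I * Complex.I) * z := by ring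
  rw [this, Complex.I_mul_I]
  ring

/-- the ordinates -/
def Gm [D : Y23.G.ZD] : Set ℝ := {t | 0 < t ∧ (1 / 2 + Complex.I * (t : ℂ)) ∈ D.Zs}

theorem win_fin [D : Y23.G.ZD] (T : ℝ) : {t : ℝ | (1 / 2 + Complex.I * (t : ℂ)) ∈ D.Zs ∧ |t - T| ≤ 1}.Finite := by
  classical
  by_contra hinf
  obtain ⟨C, hC, hcnt⟩ := D.cnt
  obtain ⟨S, hS, hcard⟩ := Set.Infinite.exists_subset_card_eq (s := {t : ℝ | (1 / 2 + Complex.I * (t : ℂ)) ∈ D.Zs ∧ |t - T| ≤ 1}) hinf
    (⌈C * Y23.Lg T⌉₊ + 1)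
  have hinj : Function.Injective fun t : ℝ => (1 / 2 + Complex.I * (t : ℂ) : ℂ) := by
    intro s t hst
    have h1 : (1 / 2 + Complex.I * (s : ℂ) : ℂ) = 1 / 2 + Complex.I * (t : ℂ) := hst
    have := congrArg Complex.im h1
    simpa using this
  have h1 := hcnt T (S.image fun t : ℝ => (1 / 2 + Complex.I * (t : ℂ) : ℂ)) (by
    intro s hs
    rw [Finset.mem_image] at hs
    obtain ⟨t, ht, rfl⟩ := hs
    have h2 := hS ht
    refine ⟨h2.1, ?_⟩
    have h3 : (1 / 2 + Complex.I * (t : ℂ) : ℂ).im = t := by simp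
    rw [h3]
    exact h2.2)
  rw [Finset.sum_image (fun x _ y _ h => hinj h)] at h1
  have h2 : S.card ≤ ∑ t ∈ S, D.mul (1 / 2 + Complex.I * (t : ℂ)) := by
    rw [Finset.card_eq_sum_ones]
    exact Finset.sum_le_sum fun t ht => D.mpos _ (hS ht).1
  have h3 : ((S.card : ℕ) : ℝ) ≤ C * Y23.Lg T := le_trans (by exact_mod_cast h2) h1
  rw [hcard] at h3
  have h4 := Nat.le_ceil (C * Y23.Lg T)
  push_cast at h3
  linarith

theorem Gm_fin [D : Y23.G.ZD] (T : ℝ) : (Gm ∩ Set.Iic T).Finite := by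
  have h1 : (⋃ k ∈ Finset.range (⌈T⌉₊ + 1), {t : ℝ | (1 / 2 + Complex.I * (t : ℂ)) ∈ D.Zs ∧ |t - (k : ℝ)| ≤ 1}).Finite := by
    refine Set.Finite.biUnion (Finset.finite_toSet _) fun k _ => win_fin (k : ℝ)
  refine h1.subset ?_
  rintro t ⟨⟨h2, h3⟩, h4⟩
  simp only [Set.mem_iUnion]
  refine ⟨⌊t⌋₊, ?_, h3, ?_⟩
  · rw [Finset.mem_range]
    have h5 : t ≤ T := h4
    have h6 : ⌊t⌋₊ ≤ ⌈T⌉₊ := (Nat.floor_le_floor h5).trans (Nat.floor_le_ceil _)
    omega
  · have h5 := Nat.floor_le h2.le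
    have h6 := Nat.lt_floor_add_one t
    rw [abs_le]
    constructor <;> linarith

theorem rho_eq [D : Y23.G.ZD] (hRH : ∀ ρ : Y23.G.Zt, (ρ : ℂ).re = 1 / 2) (ρ : Y23.G.Zt) :
    (ρ : ℂ) = 1 / 2 + Complex.I * (((ρ : ℂ).im : ℝ) : ℂ) := by
  apply Complex.ext
  · simp [hRH ρ]
  · simp

theorem abs_mem [D : Y23.G.ZD] [SD] (hRH : ∀ ρ : Y23.G.Zt, (ρ : ℂ).re = 1 / 2) (ρ : Y23.G.Zt) (h0 : (ρ : ℂ).im ≠ 0) :
    |(ρ : ℂ).im| ∈ Gm := by
  have h1 : (1 / 2 + Complex.I * (((ρ : ℂ).im : ℝ) : ℂ)) ∈ D.Zs := by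
    rw [← rho_eq hRH ρ]
    exact ρ.2
  refine ⟨abs_pos.2 h0, ?_⟩
  rcases abs_choice (ρ : ℂ).im with h | h
  · rw [h]; exact h1
  · rw [h]; exact isZ_neg h1

theorem Gm_inf (hPos : S_PosG) (hRep : S_RepInv) (hB : S_SpB) [D : Y23.G.ZD] [Y23.G.ZC] [SD]
    (hRH : ∀ ρ : Y23.G.Zt, (ρ : ℂ).re = 1 / 2) : Gm.Infinite := by
  intro hfin
  set F := hfin.toFinset with hF
  set P : ℂ[X] := X * ∏ t ∈ F, (X ^ 2 - C ((t : ℂ) ^ 2)) with hP
  have hdeg : P.natDegree ≤ 2 * (F.card + 1) := by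
    have h1 : (∏ t ∈ F, (X ^ 2 - C ((t : ℂ) ^ 2))).natDegree ≤ 2 * F.card := by
      refine (natDegree_prod_le _ _).trans ?_
      refine (Finset.sum_le_sum (g := fun _ => 2) fun t _ => ?_).trans ?_
      · rw [natDegree_X_pow_sub_C]
      · rw [Finset.sum_const, smul_eq_mul, mul_comm]
    refine natDegree_mul_le.trans ?_
    rw [natDegree_X]
    omega
  have hP0 : P ≠ 0 := by
    have h1 : P.Monic := by
      rw [hP]
      refine monic_X.mul (monic_prod_of_monic _ _ fun t _ => ?_)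
      exact monic_X_pow_sub_C _ two_ne_zero
    exact h1.ne_zero
  obtain ⟨f, hf, hf2⟩ := hRep 1 (F.card + 1) P one_pos hdeg
  have hev : ∀ z : ℂ, P.eval z = z * ∏ t ∈ F, (z ^ 2 - (t : ℂ) ^ 2) := by
    intro z
    rw [hP, eval_mul, eval_X, eval_prod]
    congr 1
    refine Finset.prod_congr rfl fun t _ => ?_
    simp
  have hQ : Y23.G.QQ f = 0 := by
    unfold Y23.G.QQ
    have h0 : ∀ ρ : Y23.G.Zt, (Y23.G.mu (ρ : ℂ) : ℝ) * (Y23.G.GG f f ((ρ : ℂ) - 1 / 2)).re = 0 := by
      intro ρ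
      have h1 : (ρ : ℂ) - 1 / 2 = Complex.I * (((ρ : ℂ).im : ℝ) : ℂ) := by
        conv_lhs => rw [rho_eq hRH ρ]
        ring
      have h2 : P.eval (((ρ : ℂ).im : ℝ) : ℂ) = 0 := by
        rw [hev]
        rcases eq_or_ne (ρ : ℂ).im 0 with h | h
        · rw [h]
          simp
        · have h3 : |(ρ : ℂ).im| ∈ F := by
            rw [hF, Set.Finite.mem_toFinset]
            exact abs_mem hRH ρ h
          refine mul_eq_zero_of_right _ (Finset.prod_eq_zero h3 ?_)
          rw [← Complex.ofReal_pow, ← Complex.ofReal_pow, sq_abs, sub_self]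
      have h3 : Y23.TT f ((ρ : ℂ) - 1 / 2) = 0 := by
        rw [h1, hf2, h2, zero_mul]
      unfold Y23.G.GG
      rw [h3, zero_mul, Complex.zero_re, mul_zero]
    simp only [h0, tsum_zero]
  have h1 := hPos hRH 1 ((F.card + 1 : ℕ) : ℕ∞) f one_pos hf hQ.le
  have h2 : ∀ᶠ z in 𝓝 (0 : ℂ), Sp 1 (F.card + 1) z ≠ 0 := by
    have h3 := (hB 1 (F.card + 1)).1.continuous.continuousAt (x := (0 : ℂ))
    refine h3.eventually_ne ?_
    rw [(hB 1 (F.card + 1)).2.2.1]
    exact one_ne_zero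
  have h3 : ∀ᶠ z in 𝓝 (0 : ℂ), P.IsRoot z := by
    filter_upwards [h2] with z hz
    have h4 := h1 (Complex.I * z)
    rw [hf2] at h4
    exact (mul_eq_zero.1 h4).resolve_right hz
  exact hP0 (eq_zero_of_infinite_isRoot P (infinite_of_mem_nhds 0 h3))

/-- **EnumG** -/
theorem enumG (hPos : S_PosG) (hRep : S_RepInv) (hSum : S_SumGG) (hB : S_SpB) : S_EnumG := by
  classical
  intro D _ _ hRH
  obtain ⟨γ, hmono, hγ⟩ := Q177.CD2.exists_enum Gm (Gm_inf hPos hRep hB hRH) Gm_fin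
  have hγG : ∀ j, γ j ∈ Gm := fun j => (hγ _).2 ⟨j, rfl⟩
  have hγ0 : ∀ j, 0 < γ j := fun j => (hγG j).1
  have hγZ : ∀ j, (1 / 2 + Complex.I * (γ j : ℂ)) ∈ D.Zs := fun j => (hγG j).2
  -- the zeros
  let sg : Bool → ℝ := fun b => if b then 1 else -1
  have hsZ : ∀ (j : ℕ) (b : Bool), (1 / 2 + Complex.I * ((sg b * γ j : ℝ) : ℂ)) ∈ D.Zs := by
    intro j b
    cases b
    · have e : sg false * γ j = -γ j := by simp [sg]
      rw [e]
      exact isZ_neg (hγZ j)
    · have e : sg true * γ j = γ j := by simp [sg]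
      rw [e]
      exact hγZ j
  let e : ℕ × Bool → Y23.G.Zt := fun p => ⟨1 / 2 + Complex.I * ((sg p.2 * γ p.1 : ℝ) : ℂ), hsZ p.1 p.2⟩
  have he : ∀ p, ((e p : Y23.G.Zt) : ℂ) = 1 / 2 + Complex.I * ((sg p.2 * γ p.1 : ℝ) : ℂ) := fun p => rfl
  have heim : ∀ p, ((e p : Y23.G.Zt) : ℂ).im = sg p.2 * γ p.1 := by
    intro p
    rw [he]
    simp
  have hsg : ∀ p : ℕ × Bool, sg p.2 * γ p.1 ≠ 0 := by
    rintro ⟨j, b⟩
    have := hγ0 j
    cases b <;> simp [sg, this.ne']
  have hinj : Function.Injective e := by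
    rintro ⟨j, b⟩ ⟨j', b'⟩ h
    have h1 : sg b * γ j = sg b' * γ j' := by
      have := congrArg (fun ρ : Y23.G.Zt => (ρ : ℂ).im) h
      simp only [heim] at this
      exact this
    have h2 := hγ0 j
    have h3 := hγ0 j'
    have hb : b = b' := by
      cases b <;> cases b' <;> simp only [sg] at h1 <;> first | rfl | (exfalso; simp at h1; linarith)
    subst hb
    have h4 : γ j = γ j' := by
      cases b <;> simp [sg] at h1 <;> exact h1
    rw [hmono.injective h4]
  have hsurj : ∀ ρ : Y23.G.Zt, (ρ : ℂ).im ≠ 0 → ∃ p, e p = ρ := by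
    intro ρ hρ
    obtain ⟨j, hj⟩ := (hγ _).1 (abs_mem hRH ρ hρ)
    rcases abs_choice (ρ : ℂ).im with h | h
    · refine ⟨(j, true), Subtype.ext ?_⟩
      rw [he]
      conv_rhs => rw [rho_eq hRH ρ]
      have : sg true * γ j = (ρ : ℂ).im := by
        simp only [sg]
        rw [hj, h]
        simp
      simp only [this]
    · refine ⟨(j, false), Subtype.ext ?_⟩
      rw [he]
      conv_rhs => rw [rho_eq hRH ρ]
      have : sg false * γ j = (ρ : ℂ).im := by
        simp only [sg]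
        rw [hj, h]
        simp
      simp only [this]
  have hmu : ∀ p, Y23.G.mu (e p : ℂ) = mg (γ p.1 : ℂ) := by
    rintro ⟨j, b⟩
    rw [he]
    unfold mg Y23.G.mu
    cases b
    · have e1 : sg false * γ j = -γ j := by simp [sg]
      simp only [e1]
      exact mul_neg' (hγZ j)
    · have e1 : sg true * γ j = γ j := by simp [sg]
      simp only [e1]
  have hzp : ∀ p, zg (e p) = ((sg p.2 * γ p.1 : ℝ) : ℂ) := fun p => zg_of _ _ (he p)
  refine ⟨γ, hmono, hγ0 0, ?_, ?_, ?_, ?_⟩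
  · intro z
    constructor
    · intro h
      let ρ : Y23.G.Zt := ⟨1 / 2 + Complex.I * z, h⟩
      have h2 : zg ρ = z := zg_of ρ z rfl
      rcases eq_or_ne (ρ : ℂ).im 0 with h0 | h0
      · left
        have h3 := rho_eq hRH ρ
        rw [h0] at h3
        have h4 : zg ρ = ((0 : ℝ) : ℂ) := zg_of ρ _ h3
        rw [h2] at h4
        have h5 : z = 0 := by
          rw [h4]
          simp
        refine ⟨h5, ?_⟩
        rw [h5, mul_zero, add_zero] at h
        exact h
      · right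
        obtain ⟨⟨j, b⟩, hp⟩ := hsurj ρ h0
        have h1 := hzp (j, b)
        rw [hp, h2] at h1
        refine ⟨j, ?_⟩
        cases b
        · right
          rw [h1]
          simp [sg]
        · left
          rw [h1]
          simp [sg]
    · rintro (⟨h1, h2⟩ | ⟨j, h | h⟩)
      · rw [h1, mul_zero, add_zero]
        exact h2
      · rw [h]
        exact hγZ j
      · have := isZ_neg (hγZ j)
        rw [h]
        push_cast at this
        exact this
  · intro j
    exact D.mpos _ (hγZ j)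
  · have h1 := (hSum (D := D)).1.comp_injective hinj
    have h2 : Function.Injective (fun j : ℕ => (j, true)) := fun a b h => (Prod.mk.inj h).1
    have h3 := h1.comp_injective h2
    refine Summable.of_nonneg_of_le (fun j => by have := hγ0 j; positivity) (fun j => ?_)
      (h3.mul_left ((1 + 1 / γ 0) ^ (7 / 4 : ℝ)))
    simp only [Function.comp]
    rw [hmu, hzp]
    have e2 : sg true * γ j = γ j := by simp [sg]
    simp only [e2]
    have hj := hγ0 j
    have hj0 : γ 0 ≤ γ j := hmono.monotone (Nat.zero_le j)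
    have h00 := hγ0 0
    rw [Complex.norm_real, Real.norm_eq_abs, abs_of_pos hj]
    have e3 : (γ j ^ 2) ^ (7 / 8 : ℝ) = γ j ^ (7 / 4 : ℝ) := by
      rw [← Real.rpow_natCast, ← Real.rpow_mul hj.le]
      norm_num
    rw [e3]
    have h4 : 1 + γ j ≤ (1 + 1 / γ 0) * γ j := by
      have : 1 ≤ 1 / γ 0 * γ j := by
        rw [one_div, ← div_eq_inv_mul, le_div_iff₀ h00]
        linarith
      linarith
    have h5 : (1 + γ j) ^ (7 / 4 : ℝ) ≤ (1 + 1 / γ 0) ^ (7 / 4 : ℝ) * γ j ^ (7 / 4 : ℝ) := by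
      rw [← Real.mul_rpow (by positivity) hj.le]
      exact Real.rpow_le_rpow (by positivity) h4 (by norm_num)
    have h6 : 0 < (1 + γ j) ^ (7 / 4 : ℝ) := by positivity
    have h7 : 0 < γ j ^ (7 / 4 : ℝ) := by positivity
    rw [← mul_div_assoc, div_le_div_iff₀ h7 h6]
    calc (mg (γ j : ℂ) : ℝ) * (1 + γ j) ^ (7 / 4 : ℝ) ≤
        (mg (γ j : ℂ) : ℝ) * ((1 + 1 / γ 0) ^ (7 / 4 : ℝ) * γ j ^ (7 / 4 : ℝ)) :=
          mul_le_mul_of_nonneg_left h5 (by positivity)
      _ = _ := by ring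
  · intro F hF
    -- remove the centre
    set f : Y23.G.Zt → ℝ := fun ρ => (Y23.G.mu (ρ : ℂ) : ℝ) * F (zg ρ) with hf
    let f' : Y23.G.Zt → ℝ := fun ρ => if (ρ : ℂ).im = 0 then 0 else f ρ
    have hf' : HasSum f' (∑' ρ, f ρ - m0 * F 0) := by
      by_cases hc : (1 / 2 : ℂ) ∈ D.Zs
      · let c : Y23.G.Zt := ⟨1 / 2, hc⟩
        have h1 := hF.hasSum.sub (hasSum_ite_eq c (f c))
        have h2 : f c = m0 * F 0 := by
          have h3 : zg c = 0 := zg_of c 0 (by simp [c])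
          have h4 : (Y23.G.mu (c : ℂ)) = m0 := by
            unfold m0 Y23.G.mu
            rw [if_pos hc]
          simp only [hf, h3, h4]
        rw [h2] at h1
        have h5 : f' = fun ρ => f ρ - if ρ = c then (m0 : ℝ) * F 0 else 0 := by
          funext ρ
          simp only [f']
          by_cases h0 : (ρ : ℂ).im = 0
          · have h3 : ρ = c := by
              refine Subtype.ext ?_
              rw [rho_eq hRH ρ, h0]
              simp [c]
            rw [if_pos h0, if_pos h3, h3, ← h2, sub_self]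
          · have h3 : ρ ≠ c := by
              intro h
              rw [h] at h0
              simp [c] at h0
            rw [if_neg h0, if_neg h3, sub_zero]
        rw [h5]
        exact h1
      · have h2 : (m0 : ℕ) = 0 := by
          unfold m0
          rw [if_neg hc]
        rw [h2, Nat.cast_zero, zero_mul, sub_zero]
        have h3 : f' = f := by
          funext ρ
          simp only [f']
          rw [if_neg]
          intro h0
          apply hc
          have := rho_eq hRH ρ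
          rw [h0] at this
          have h4 : (ρ : ℂ) = 1 / 2 := by
            rw [this]
            simp
          rw [← h4]
          exact ρ.2
        rw [h3]
        exact hF.hasSum
    have h1 : HasSum (f' ∘ e) (∑' ρ, f ρ - m0 * F 0) := by
      refine (hinj.hasSum_iff ?_).2 hf'
      intro ρ hρ
      simp only [f']
      rw [if_pos]
      by_contra h0
      exact hρ (hsurj ρ h0)
    refine h1.prod_fiberwise fun j => ?_
    have h2 := hasSum_fintype (fun b : Bool => (f' ∘ e) (j, b))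
    rw [Fintype.sum_bool] at h2
    convert h2 using 1
    simp only [Function.comp, f']
    rw [if_neg (by rw [heim]; exact hsg (j, true)), if_neg (by rw [heim]; exact hsg (j, false))]
    simp only [hf]
    rw [hmu, hmu, hzp, hzp]
    have e2 : sg true * γ j = γ j := by simp [sg]
    have e3 : sg false * γ j = -γ j := by simp [sg]
    simp only [e2, e3]
    push_cast
    ring

end Pool.Agent.Q150.CG
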